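import Pool.Agent.Helper83.TKC.StB
import Pool.Agent.Helper28.TK.M_Bridge
import Pool.Agent.Helper79.TL.StE

/-!
# Project TK (levels `3 p^n`, `f | W_3 = f`): Theorem A modulo `p^M` for the symbols `SymK`, for all weights

Contents of the modules; the model is `Helper79/THE/StE.lean` (levels `2 p^n`) with `3` in place of `2`. Differences: invariance under `u` only gives `2 χ ≈ 0` (`UIpH`), so INT needs the
factor `2`; the base of the induction for `K` is `CoreVK p 2`.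
-/

set_option autoImplicit false

namespace Pool.Agent.Helper79.TKE

open Pool.Agent.Helper14.CV (Homog EqC act Tl)
open Pool.Agent.Helper28.WK (Tw evw)
open Pool.Agent.Helper93.TLE (DDE)
open Pool.Agent.Helper4.TK Pool.Agent.Helper83.TKC
open Pool.Agent.Helper79.S7 (evc)

/-- All words of a combination are admissible. -/
def OkCK (p : ℕ) (C : List (ℤ × List ℕ)) : Prop := ∀ c ∈ C, OkK p c.2

/-- Killed by all words. -/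
def WzK {R : Type} [AddCommGroup R] (p : ℕ) (m : ℤ) (G : ℤ → ℤ → R) : Prop :=
  ∀ ls : List ℕ, OkK p ls → evw m ls G = 0

/-- The content of EVU. -/
def EvUK (p : ℕ) : Prop := ∀ (R : Type) (_ : AddCommGroup R) (n : ℕ) (G : ℤ → ℤ → R),
  SymK p 0 n G → SymK p 0 (n + 1) (act p 0 0 1 G) ∧
    ∀ ls : List ℕ, OkK p ls → evw 1 ls (act p 0 0 1 G) = evw 1 ls G

/-- The content of BAS: an integral family with determinant prime to `p`. -/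
def BasK (p D : ℕ) (dd : ℕ → ℕ) : Prop := ∀ m : ℕ, 3 ≤ m →
  ∃ (G : Fin (DDE D dd m) → ℤ → ℤ → ℤ) (C : Fin (DDE D dd m) → List (ℤ × List ℕ)),
    (∀ k, SymK p 0 m (G k)) ∧ (∀ l, OkCK p (C l)) ∧
    ¬ (p : ℤ) ∣ Matrix.det (Matrix.of fun k l => evc 1 (C l) (G k))

/-- The content of DIM. -/
def DimK (p D : ℕ) (dd : ℕ → ℕ) : Prop := ∀ (m : ℕ) (G : Fin (DDE D dd m) → (ℤ → ℤ → ℂ)), 3 ≤ m →
  (∀ k, SymK p 0 m (G k)) → LinearIndependent ℂ (fun k => evLK p (G k)) →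
  ∀ H : ℤ → ℤ → ℂ, SymK p 0 m H → evLK p H ∈ Submodule.span ℂ (Set.range fun k => evLK p (G k))

/-- The content of NEX. -/
def NexK (p : ℕ) : Prop := ∀ (m : ℕ) (G0 G1 : ℤ → ℤ → ℂ), 3 ≤ m →
  SymK p 0 (m - 1) G0 → NewSymK p m G1 → (∀ ls : List ℕ, OkK p ls → evw 1 ls G0 + evw 1 ls G1 = 0) → EqC G1 0

/-- The content of KS. -/
def KsK (p : ℕ) : Prop := ∀ (m : ℕ) (G : ℤ → ℤ → ℂ), 3 ≤ m → SymK p 0 m G →
  EqC (act 0 (-1) (3 * (p : ℤ) ^ m) 0 G) (-G) → EqC (act (-1) 0 0 1 G) G → WzK p 1 G →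
  ∃ G' ψ : ℤ → ℤ → ℂ, SymK p 0 (m - 1) G' ∧ SymK p 0 (m - 1) ψ ∧
    EqC (act 0 (-1) (3 * (p : ℤ) ^ (m - 1)) 0 G') (-G') ∧ EqC (act (-1) 0 0 1 G') G' ∧
    WzK p 1 G' ∧ EqC G (G' + (act p 0 0 1 ψ - ψ))

/-- The content of K. -/
def KkK (p : ℕ) : Prop := ∀ (m : ℕ) (G : ℤ → ℤ → ℂ), 3 ≤ m → SymK p 0 m G →
  EqC (act 0 (-1) (3 * (p : ℤ) ^ m) 0 G) (-G) → EqC (act (-1) 0 0 1 G) G → WzK p 1 G →
  ∃ ψ : ℤ → ℤ → ℂ, SymK p 0 (m - 1) ψ ∧ EqC (act p 0 0 1 ψ - ψ) G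

/-- The content of LFT. -/
def LftK (p : ℕ) : Prop := ∀ (m M : ℕ) (g : ℤ → ℤ → ZMod (p ^ M)), 2 ≤ m →
  SymK p 0 m g → ∃ G : ℤ → ℤ → ℤ, SymK p 0 m G ∧ EqC (fun x y => ((G x y : ℤ) : ZMod (p ^ M))) g

/-- The content of CRM. -/
def CrmK (p : ℕ) : Prop := ∀ (m M : ℕ) (g : ℤ → ℤ → ZMod (p ^ M)), 3 ≤ m → SymK p 0 m g → WzK p 1 g →
  ∃ (d : ℤ) (G : ℤ → ℤ → ℤ), ¬ (p : ℤ) ∣ d ∧ SymK p 0 m G ∧ WzK p 1 G ∧
    EqC (fun x y => ((G x y : ℤ) : ZMod (p ^ M))) (d • g)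

/-- The content of INT. -/
def IntK (p : ℕ) : Prop := ∀ (m : ℕ) (ψ : ℤ → ℤ → ℂ) (G : ℤ → ℤ → ℤ), SymK p 0 m ψ →
  EqC (act p 0 0 1 ψ - ψ) (fun x y => ((G x y : ℤ) : ℂ)) →
  ∃ ψ' : ℤ → ℤ → ℤ, SymK p 0 m ψ' ∧ EqC (act p 0 0 1 ψ' - ψ') ((2 : ℤ) • G)

/-- Theorem A for the symbols `SymK`. -/
def TAKe (p : ℕ) : Prop := ∀ (m M : ℕ) (g : ℤ → ℤ → ZMod (p ^ M)), 3 ≤ m → SymK p 0 m g →
  EqC (act 0 (-1) (3 * (p : ℤ) ^ m) 0 g) (-g) → EqC (act (-1) 0 0 1 g) g →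
  (∀ ls : List ℕ, OkK p ls → evw 1 ls g = 0) →
  ∃ ψ : ℤ → ℤ → ZMod (p ^ M), SymK p 0 (m - 1) ψ ∧ EqC (act p 0 0 1 ψ - ψ) ((4 : ℤ) • g)

theorem TAKe.toTAH {p : ℕ} (h : TAKe p) : Pool.Agent.Helper28.TK.TAH p 4 :=
  Pool.Agent.Helper28.TK.tah_of p 4 fun m M g hm hg hW hT hev => h m M g (by omega) hg hW hT hev

end Pool.Agent.Helper79.TKE
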