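import Pool.Agent.Helper79.TKE.M_TA
import Pool.Agent.Helper79.TKE.M_Dim
import Pool.Agent.Helper79.TKE.M_Crm
import Pool.Agent.Helper79.TKE.M_Ks
import Pool.Agent.Helper79.TKE.M_Int
import Pool.Agent.Helper79.TKE.M_EvU

/-!
# Project TK: Theorem A for the symbols `SymK` (levels `3 p^n`), assembled
-/

set_option autoImplicit false

namespace Pool.Agent.Helper79.TKE

open Pool.Agent.Helper93.TLE (DDE)
open Pool.Agent.Helper4.TK Pool.Agent.Helper83.TKC

/-- Theorem A for the symbols `SymK`, from the dimension bounds, an integral basis and the lifting of symbols. -/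
theorem hTAKof (p D : ℕ) (dd : ℕ → ℕ) (hp : p.Prime) (hp3 : p ≠ 3) (hp2 : p ≠ 2) (avg : SKAvg) (com : SKCom)
    (ev : SKEv) (hks : SKHkS) (b3a : SKB3a) (b : B3bK p D) (ub : UBK p dd)
    (lb : LBK p D dd) (base : CoreVK p 2) (bas : BasK p D dd) (lft : LftK p)
    (uip : Pool.Agent.Helper28.TK.UIpH) : TAKe p := by
  have dim := hDim p D dd hp hp3 b3a b ub
  have nex := hNex p D dd hp hp3 b3a b ub lb
  have evu : EvUK p := hEvU p hp hp3 (fun R inst n G hG l hl h2 h3 => hks p hp hp3 R inst n G hG l hl h2 h3)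
  have ks := hKs avg com ev p hp hp3 nex evu
  have kk := hKk p ks base
  have crm := hCrm p D dd bas dim lft
  have int := hInt uip p hp hp3
  exact hTA avg com ev p hp hp3 hp2 crm kk int

end Pool.Agent.Helper79.TKE
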