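import Pool.Agent.Helper79.THE.Cyc
import Pool.Agent.Helper4.TK.StD

/-!
# Project TK (`5`): lifting solutions of the relation from `ZMod q` to the integers, planes of type `(r, 0)`

The translation `T` is one cycle on the plane, and the relation applied to `(F0, 0, 0)` is `F0 - F0∘T`: it is onto the functions of sum zero.
-/

set_option autoImplicit false

namespace Pool.Agent.Helper79.TKE

open Pool.Agent.Helper14.W5 (tr5 S5Trm)
open Pool.Agent.Helper79.THE (cycZ)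
open Pool.Agent.Helper4.TK

namespace LiftM5K

private abbrev Pq (r : ℕ) : Type := ZMod (5 ^ r) × ZMod (5 ^ 0)

private def mu {r : ℕ} (a b c d : ℤ) (p : Pq r) : Pq r :=
  tr5 a b c d (fun x y => ((x, y) : Pq r)) p.1 p.2

private theorem mu_mul (hTrm : S5Trm) {r : ℕ} {a b c d a' b' c' d' : ℤ} (h1 : ¬ 5 ∣ a)
    (h2 : ¬ 5 ∣ d) (h3 : ¬ 5 ∣ a') (h4 : ¬ 5 ∣ d') (p : Pq r) :
    mu a' b' c' d' (mu a b c d p) =
      mu (a * a' + 5 * b * c') (a * b' + b * d') (c * a' + d * c') (5 * c * b' + d * d') p := by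
  have h := congrFun (congrFun ((hTrm (Pq r) r 0 (fun x y => (x, y))).1 a b c d a' b' c' d'
    h1 h2 h3 h4) p.1) p.2
  exact h

private theorem mu_sc (hTrm : S5Trm) {r : ℕ} (k : ℤ) (hk : ¬ 5 ∣ k) (p : Pq r) :
    mu (k * 1) (k * 0) (k * 0) (k * 1) p = p := by
  have h := congrFun (congrFun ((hTrm (Pq r) r 0 (fun x y => (x, y))).2.2 k 1 0 0 1 hk
    (by norm_num) (by norm_num)) p.1) p.2
  have h1 := congrFun (congrFun (hTrm (Pq r) r 0 (fun x y => (x, y))).2.1 p.1) p.2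
  exact h.trans h1

/-- The sum over the plane does not change under a matrix with an inverse up to a scalar. -/
private theorem sum_mu (hTrm : S5Trm) {r : ℕ} (a b c d : ℤ) (h1 : ¬ 5 ∣ a) (h2 : ¬ 5 ∣ d)
    (h3 : ¬ 5 ∣ a * d - 5 * b * c) (F : Pq r → ℤ) : ∑ p, F (mu a b c d p) = ∑ p, F p := by
  have hb : Function.Bijective (mu a b c d : Pq r → Pq r) := by
    refine Finite.injective_iff_bijective.1 ?_
    have hl : Function.LeftInverse (mu d (-b) (-c) a : Pq r → Pq r) (mu a b c d) := by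
      intro p
      rw [mu_mul hTrm h1 h2 h2 h1]
      have e := mu_sc hTrm (r := r) (a * d - 5 * b * c) h3 p
      have e1 : a * d + 5 * b * -c = (a * d - 5 * b * c) * 1 := by ring
      have e2 : a * -b + b * a = (a * d - 5 * b * c) * 0 := by ring
      have e3 : c * d + d * -c = (a * d - 5 * b * c) * 0 := by ring
      have e4 : 5 * c * -b + d * a = (a * d - 5 * b * c) * 1 := by ring
      rw [e1, e2, e3, e4]
      exact e
    exact hl.injective
  exact hb.sum_comp F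

private theorem mT_eq {r : ℕ} (p : Pq r) : mu 1 1 0 1 p = (p.1 + 1, p.2) := by
  have i1 : ((1 : ZMod (5 ^ r)))⁻¹ = 1 := ZMod.inv_eq_of_mul_eq_one _ _ _ (by ring)
  have hs : ∀ u v : ZMod (5 ^ 0), u = v := by
    intro u v
    have h : Subsingleton (ZMod (5 ^ 0)) := by
      rw [pow_zero]; infer_instance
    exact h.elim u v
  unfold mu tr5
  refine Prod.ext ?_ (hs _ _)
  show (((1 : ℤ) : ZMod (5 ^ r)) + ((1 : ℤ) : ZMod (5 ^ r)) * p.1) *
    (((1 : ℤ) : ZMod (5 ^ r)) + 5 * ((0 : ℤ) : ZMod (5 ^ r)) * p.1)⁻¹ = p.1 + 1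
  rw [Int.cast_one, Int.cast_zero, mul_zero, zero_mul, add_zero, i1]
  ring

private def mT {r : ℕ} : Pq r → Pq r := mu 1 1 0 1
private def mb {r : ℕ} : Pq r → Pq r := mu 9 (-2) 3 (-3)
private def ma {r : ℕ} : Pq r → Pq r := mu 12 (-5) 3 (-6)

theorem main (hm : S5Trm) (r q : ℕ) (hq0 : q ≠ 0)
    (f : Fin 3 → ZMod (5 ^ r) → ZMod (5 ^ 0) → ZMod q) (hf : RelK f) :
    ∃ F : Fin 3 → ZMod (5 ^ r) → ZMod (5 ^ 0) → ℤ, RelK F ∧
      ∀ i x y, ((F i x y : ℤ) : ZMod q) = f i x y := by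
  have hM : NeZero q := ⟨hq0⟩
  have hN : NeZero (5 ^ r) := ⟨by positivity⟩
  have hN0 : NeZero (5 ^ 0) := ⟨by positivity⟩
  let f0 : Pq r → ℤ := fun p => ((f 0 p.1 p.2).val : ℤ)
  let f1 : Pq r → ℤ := fun p => ((f 1 p.1 p.2).val : ℤ)
  let f2 : Pq r → ℤ := fun p => ((f 2 p.1 p.2).val : ℤ)
  have cv : ∀ z : ZMod q, (((z.val : ℤ)) : ZMod q) = z := by
    intro z
    push_cast
    exact ZMod.natCast_zmod_val _
  have h0 : ∀ p, ((f0 p : ℤ) : ZMod q) = f 0 p.1 p.2 := fun p => cv _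
  have h1 : ∀ p, ((f1 p : ℤ) : ZMod q) = f 1 p.1 p.2 := fun p => cv _
  have h2 : ∀ p, ((f2 p : ℤ) : ZMod q) = f 2 p.1 p.2 := fun p => cv _
  let E : Pq r → ℤ := fun p => f0 p - f0 (mT p) - (f1 p - f1 (mb p)) -
    ((f2 p - f1 p) - (f2 (ma p) - f1 (ma p)))
  have r1 : ∀ p : Pq r, f 0 p.1 p.2 - f 0 (mT p).1 (mT p).2 - (f 1 p.1 p.2 - f 1 (mb p).1 (mb p).2) -
      ((f 2 p.1 p.2 - f 1 p.1 p.2) - (f 2 (ma p).1 (ma p).2 - f 1 (ma p).1 (ma p).2)) = 0 :=
    fun p => hf p.1 p.2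
  have hEd : ∀ p, (q : ℤ) ∣ E p := by
    intro p
    rw [← ZMod.intCast_zmod_eq_zero_iff_dvd]
    show ((f0 p - f0 (mT p) - (f1 p - f1 (mb p)) -
      ((f2 p - f1 p) - (f2 (ma p) - f1 (ma p))) : ℤ) : ZMod q) = 0
    push_cast
    rw [h0, h0, h1, h1, h1, h2, h2]
    exact r1 p
  choose h hh using hEd
  have sT : ∀ F : Pq r → ℤ, ∑ p, F (mT p) = ∑ p, F p := fun F =>
    sum_mu hm 1 1 0 1 (by norm_num) (by norm_num) (by norm_num) F
  have sb : ∀ F : Pq r → ℤ, ∑ p, F (mb p) = ∑ p, F p := fun F =>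
    sum_mu hm 9 (-2) 3 (-3) (by norm_num) (by norm_num) (by norm_num) F
  have sa : ∀ F : Pq r → ℤ, ∑ p, F (ma p) = ∑ p, F p := fun F =>
    sum_mu hm 12 (-5) 3 (-6) (by norm_num) (by norm_num) (by norm_num) F
  have hsumE : ∑ p, E p = 0 := by
    have e0 : ∑ p, E p = ∑ p, f0 p - ∑ p, f0 (mT p) - (∑ p, f1 p - ∑ p, f1 (mb p)) -
        ((∑ p, f2 p - ∑ p, f1 p) - (∑ p, f2 (ma p) - ∑ p, f1 (ma p))) := by
      simp only [E, Finset.sum_sub_distrib]
    rw [e0, sT f0, sb f1, sa f2, sa f1]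
    ring
  have hsumh : ∑ p, h p = 0 := by
    have e1 : (q : ℤ) * ∑ p, h p = 0 := by
      rw [Finset.mul_sum, ← hsumE]
      exact Finset.sum_congr rfl fun p _ => (hh p).symm
    rcases mul_eq_zero.1 e1 with e2 | e2
    · exact absurd (by exact_mod_cast e2) hq0
    · exact e2
  have hun : Unique (ZMod (5 ^ 0)) := by
    rw [pow_zero]; infer_instance
  have hz : ∀ y : ZMod (5 ^ 0), y = 0 := by
    intro y
    rw [hun.uniq y, hun.uniq 0]
  let kk : ZMod (5 ^ r) → ℤ := fun x => h (x, 0)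
  have hk : ∑ x, kk x = 0 := by
    have s1 := hsumh
    rw [Fintype.sum_prod_type] at s1
    rw [← s1]
    refine Finset.sum_congr rfl fun x _ => ?_
    rw [Fintype.sum_unique]
    exact congrArg (fun y : ZMod (5 ^ 0) => h (x, y)) (hz _).symm
  obtain ⟨K, hK⟩ := cycZ kk hk
  have hKp : ∀ p : Pq r, K p.1 - K (mT p).1 = h p := by
    intro p
    have e0 : mT p = (p.1 + 1, p.2) := mT_eq p
    rw [e0]
    have e1 := hK p.1
    have e3 : ((p.1, 0) : Pq r) = p := Prod.ext rfl (hz _).symm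
    show K p.1 - K (p.1 + 1) = h p
    rw [e1]
    show h (p.1, 0) = h p
    rw [e3]
  refine ⟨![fun x y => f0 (x, y) - q * K x, fun x y => f1 (x, y), fun x y => f2 (x, y)], ?_, ?_⟩
  · intro x y
    show (f0 (x, y) - q * K x) - (f0 (mT (x, y)) - q * K (mT (x, y)).1) -
      (f1 (x, y) - f1 (mb (x, y))) -
      ((f2 (x, y) - f1 (x, y)) - (f2 (ma (x, y)) - f1 (ma (x, y)))) = 0
    have e1 := hh (x, y)
    have e2 := hKp (x, y)
    have e3 : E (x, y) = f0 (x, y) - f0 (mT (x, y)) - (f1 (x, y) - f1 (mb (x, y))) -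
      ((f2 (x, y) - f1 (x, y)) - (f2 (ma (x, y)) - f1 (ma (x, y)))) := rfl
    have e4 : K x - K (mT (x, y)).1 = h (x, y) := e2
    linear_combination (-1 : ℤ) * e3 + e1 - (q : ℤ) * e4
  · intro i x y
    fin_cases i
    · show ((f0 (x, y) - q * K x : ℤ) : ZMod q) = f 0 x y
      push_cast
      rw [h0, ZMod.natCast_self, zero_mul, sub_zero]
    · exact h1 (x, y)
    · exact h2 (x, y)

end LiftM5K

/-- Lifting solutions of the relation for the levels `3·5^n`. -/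
theorem liftCoreK5 (hm : S5Trm) (r q : ℕ) (hq0 : q ≠ 0)
    (f : Fin 3 → ZMod (5 ^ r) → ZMod (5 ^ 0) → ZMod q) (hf : RelK f) :
    ∃ F : Fin 3 → ZMod (5 ^ r) → ZMod (5 ^ 0) → ℤ, RelK F ∧
      ∀ i x y, ((F i x y : ℤ) : ZMod q) = f i x y :=
  LiftM5K.main hm r q hq0 f hf

end Pool.Agent.Helper79.TKE
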