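import Pool.Agent.Helper79.TKE.StE
import Pool.Agent.Helper79.TKE.LiftCore5

/-!
# Project TK, module Lft5: lifting the symbols `SymK` from `ZMod (5^M)` to the integers
-/

set_option autoImplicit false

namespace Pool.Agent.Helper79.TKE

open Pool.Agent.Helper14.CV (Homog EqC act)
open Pool.Agent.Helper14.W5 (S5Trm)
open Pool.Agent.Helper4.TK (KTy SymK SymK.add SymK.neg)

namespace Lf

/-- the reduction modulo `q` -/
def rd (q : ℕ) (G : ℤ → ℤ → ℤ) : ℤ → ℤ → ZMod q :=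
  fun u v => ((G u v : ℤ) : ZMod q)

theorem rd_Sym {p q r s : ℕ} {G : ℤ → ℤ → ℤ} (h : SymK p r s G) : SymK p r s (rd q G) := by
  refine ⟨?_, ?_⟩
  · intro k u v hk hpq
    change ((G (k * u) (k * v) : ℤ) : ZMod q) = ((G u v : ℤ) : ZMod q)
    rw [h.1 k u v hk hpq]
  · intro a b c d hdet hb hc
    obtain ⟨e, he⟩ := h.2 a b c d hdet hb hc
    refine ⟨(e : ZMod q), ?_⟩
    intro u v hpq
    have h2 : G (a * u + b * v) (c * u + d * v) = G u v + e := he u v hpq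
    change ((G (a * u + b * v) (c * u + d * v) : ℤ) : ZMod q) = ((G u v : ℤ) : ZMod q) + e
    rw [h2, Int.cast_add]

private theorem three_of_pow {p : ℕ} (hp : ¬ 3 ∣ p) (r : ℕ) {x : ℤ} (h : (3 : ℤ) ∣ (p : ℤ) ^ r * x) :
    (3 : ℤ) ∣ x := by
  have h1 : ¬ (3 : ℤ) ∣ (p : ℤ) ^ r := by
    intro h2
    exact hp (by exact_mod_cast Int.prime_three.dvd_of_dvd_pow h2)
  exact (Int.prime_three.dvd_or_dvd h).resolve_left h1

/-- from level `(0, r + s)` to level `(r, s)` -/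
theorem sym_up {R : Type} [AddCommGroup R] {p : ℕ} (hp : ¬ 3 ∣ p) {r s : ℕ} {g : ℤ → ℤ → R}
    (h : SymK p 0 (r + s) g) : SymK p r s (fun u v => g u ((p : ℤ) ^ r * v)) := by
  have hp0 : (p : ℤ) ≠ 0 := by
    intro h0
    have : p = 0 := by exact_mod_cast h0
    rw [this] at hp
    exact hp (dvd_zero 3)
  have hnz : ∀ {u v : ℤ}, (u ≠ 0 ∨ v ≠ 0) → (u ≠ 0 ∨ (p : ℤ) ^ r * v ≠ 0) := by
    intro u v hpq
    rcases hpq with h0 | h0
    · exact Or.inl h0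
    · exact Or.inr (mul_ne_zero (pow_ne_zero _ hp0) h0)
  refine ⟨?_, ?_⟩
  · intro k u v hk hpq
    have e := h.1 k u ((p : ℤ) ^ r * v) hk (hnz hpq)
    have e1 : (p : ℤ) ^ r * (k * v) = k * ((p : ℤ) ^ r * v) := by ring
    change g (k * u) ((p : ℤ) ^ r * (k * v)) = g u ((p : ℤ) ^ r * v)
    rw [e1, e]
  · intro a b c d hdet hb hc
    obtain ⟨b', hb'⟩ := hb
    obtain ⟨c', hc'⟩ := hc
    have ed : a * d - b' * ((p : ℤ) ^ r * c) = a * d - b * c := by rw [hb']; ring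
    have hty : KTy a b' ((p : ℤ) ^ r * c) d := by
      rcases hdet with ⟨h1, h2⟩ | ⟨h1, h2, h3, h4⟩
      · exact Or.inl ⟨ed.trans h1, Dvd.dvd.mul_left h2 _⟩
      · exact Or.inr ⟨ed.trans h1, h2, Dvd.dvd.mul_left h3 _, h4⟩
    obtain ⟨k, hk⟩ := h.2 a b' ((p : ℤ) ^ r * c) d hty (by simp)
      ⟨c', by rw [hc', pow_add]; ring⟩
    refine ⟨k, ?_⟩
    intro u v hpq
    change g (a * u + b * v) ((p : ℤ) ^ r * (c * u + d * v)) = g u ((p : ℤ) ^ r * v) + k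
    have e' : g (a * u + b' * ((p : ℤ) ^ r * v)) ((p : ℤ) ^ r * c * u + d * ((p : ℤ) ^ r * v)) =
        g u ((p : ℤ) ^ r * v) + k := hk u ((p : ℤ) ^ r * v) (hnz hpq)
    have e1 : a * u + b * v = a * u + b' * ((p : ℤ) ^ r * v) := by rw [hb']; ring
    have e2 : (p : ℤ) ^ r * (c * u + d * v) = (p : ℤ) ^ r * c * u + d * ((p : ℤ) ^ r * v) := by ring
    rw [e1, e2, e']

/-- from level `(r, s)` to level `(0, r + s)` -/
theorem sym_down {R : Type} [AddCommGroup R] {p : ℕ} (hp : ¬ 3 ∣ p) {r s : ℕ} {G : ℤ → ℤ → R}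
    (h : SymK p r s G) : SymK p 0 (r + s) (fun u v => G ((p : ℤ) ^ r * u) v) := by
  have hp0 : (p : ℤ) ≠ 0 := by
    intro h0
    have : p = 0 := by exact_mod_cast h0
    rw [this] at hp
    exact hp (dvd_zero 3)
  have hnz : ∀ {u v : ℤ}, (u ≠ 0 ∨ v ≠ 0) → ((p : ℤ) ^ r * u ≠ 0 ∨ v ≠ 0) := by
    intro u v hpq
    rcases hpq with h0 | h0
    · exact Or.inl (mul_ne_zero (pow_ne_zero _ hp0) h0)
    · exact Or.inr h0
  refine ⟨?_, ?_⟩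
  · intro k u v hk hpq
    have e := h.1 k ((p : ℤ) ^ r * u) v hk (hnz hpq)
    have e1 : (p : ℤ) ^ r * (k * u) = k * ((p : ℤ) ^ r * u) := by ring
    change G ((p : ℤ) ^ r * (k * u)) (k * v) = G ((p : ℤ) ^ r * u) v
    rw [e1, e]
  · intro a b c d hdet _ hc
    obtain ⟨c', hc'⟩ := hc
    have ed : a * d - (p : ℤ) ^ r * b * ((p : ℤ) ^ s * c') = a * d - b * c := by
      rw [hc', pow_add]
      ring
    have ec : (3 : ℤ) ∣ c → (3 : ℤ) ∣ (p : ℤ) ^ s * c' := by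
      intro h2
      have e : c = (p : ℤ) ^ r * ((p : ℤ) ^ s * c') := by rw [hc', pow_add]; ring
      rw [e] at h2
      exact three_of_pow hp r h2
    have hty : KTy a ((p : ℤ) ^ r * b) ((p : ℤ) ^ s * c') d := by
      rcases hdet with ⟨h1, h2⟩ | ⟨h1, h2, h3, h4⟩
      · exact Or.inl ⟨ed.trans h1, ec h2⟩
      · exact Or.inr ⟨ed.trans h1, h2, ec h3, h4⟩
    obtain ⟨k, hk⟩ := h.2 a ((p : ℤ) ^ r * b) ((p : ℤ) ^ s * c') d hty
      (Dvd.intro _ rfl) (Dvd.intro _ rfl)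
    refine ⟨k, ?_⟩
    intro u v hpq
    have e' : G (a * ((p : ℤ) ^ r * u) + (p : ℤ) ^ r * b * v) ((p : ℤ) ^ s * c' * ((p : ℤ) ^ r * u) + d * v) =
        G ((p : ℤ) ^ r * u) v + k := hk ((p : ℤ) ^ r * u) v (hnz hpq)
    change G ((p : ℤ) ^ r * (a * u + b * v)) (c * u + d * v) = G ((p : ℤ) ^ r * u) v + k
    have e1 : (p : ℤ) ^ r * (a * u + b * v) = a * ((p : ℤ) ^ r * u) + (p : ℤ) ^ r * b * v := by ring
    have e2 : c * u + d * v = (p : ℤ) ^ s * c' * ((p : ℤ) ^ r * u) + d * v := by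
      rw [hc', pow_add]
      ring
    rw [e1, e2, e']

end Lf

open Lf Pool.Agent.Helper4.TK

private theorem rd_pf {M q q' : ℕ} (G : ℤ → ℤ → ℤ) (i : Fin 3) (x : ZMod q) (y : ZMod q') :
    pfK (rd M G) i x y = ((pfK G i x y : ℤ) : ZMod M) := by
  unfold pfK edgeK
  rw [Int.cast_sub]
  rfl

private theorem sub_pf {M q q' : ℕ} (G H : ℤ → ℤ → ZMod M) (i : Fin 3) (x : ZMod q)
    (y : ZMod q') : pfK (G + -H) i x y = pfK G i x y - pfK H i x y := by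
  unfold pfK edgeK
  simp only [Pi.add_apply, Pi.neg_apply]
  ring

/-- LFT for `p = 5`. -/
theorem hLft5 (hm : S5Trm) (hRel : TRel) (hEx : TEx) (hUni : TUni) : LftK 5 := by
  intro m M g hm2 hg
  obtain ⟨r, rfl⟩ : ∃ r, m = r + 1 := ⟨m - 1, by omega⟩
  have h5 : ¬ 3 ∣ 5 := by decide
  have hg1 : SymK 5 r 1 (fun p q => g p (((5 : ℕ) : ℤ) ^ r * q)) := sym_up h5 hg
  have h1 := hRel (ZMod (5 ^ M)) _ r 0 _ hg1
  obtain ⟨F, hF, hF3⟩ := liftCoreK5 hm r (5 ^ M) (by positivity) _ h1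
  obtain ⟨G1, hG, hG1⟩ := hEx ℤ _ r 0 F hF
  have h2 : SymK 5 r (0 + 1) (rd (5 ^ M) G1 + -(fun p q => g p (((5 : ℕ) : ℤ) ^ r * q))) :=
    SymK.add (rd_Sym hG) (SymK.neg hg1)
  have h3 : EqC (rd (5 ^ M) G1 + -(fun p q => g p (((5 : ℕ) : ℤ) ^ r * q))) 0 := by
    refine hUni (ZMod (5 ^ M)) _ r 0 _ h2 fun i => ?_
    funext x y
    rw [sub_pf, rd_pf, hG1, hF3, sub_self]
    rfl
  refine ⟨fun p q => G1 (((5 : ℕ) : ℤ) ^ r * p) q, sym_down h5 hG, ?_⟩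
  obtain ⟨c, hc⟩ := h3
  refine ⟨c, fun p q hpq => ?_⟩
  have h50 : ((5 : ℕ) : ℤ) ^ r ≠ 0 := by positivity
  have hnz : ((5 : ℕ) : ℤ) ^ r * p ≠ 0 ∨ q ≠ 0 := by
    rcases hpq with h0 | h0
    · exact Or.inl (mul_ne_zero h50 h0)
    · exact Or.inr h0
  have h5 := hc (((5 : ℕ) : ℤ) ^ r * p) q hnz
  have h6 := hg.1 (((5 : ℕ) : ℤ) ^ r) p q h50 hpq
  have h7 : ((G1 (((5 : ℕ) : ℤ) ^ r * p) q : ℤ) : ZMod (5 ^ M)) +
      -(g (((5 : ℕ) : ℤ) ^ r * p) (((5 : ℕ) : ℤ) ^ r * q)) = 0 + c := h5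
  rw [h6, zero_add] at h7
  change ((G1 (((5 : ℕ) : ℤ) ^ r * p) q : ℤ) : ZMod (5 ^ M)) = g p q + c
  rw [← h7]
  abel

end Pool.Agent.Helper79.TKE
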