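import Pool.Agent.Helper79.TKE.Asm
import Pool.Agent.Helper79.TKE.M_Lft5
import Pool.Agent.Helper4.TK.LB
import Pool.Agent.Helper76.TK5.UbK
import Pool.Agent.Helper76.TK5.M_Bas
import Pool.Agent.Helper83.TKC.Asm
import Pool.Agent.Helper57.TKW.M_UIp

/-!
# Project TK: Theorem A for the symbols `SymK` and the prime `5`
-/

set_option autoImplicit false

namespace Pool.Agent.Helper79.TKE

open Pool.Agent.Helper4.TK Pool.Agent.Helper83.TKC

/-- Symbols of level `3·5^m`, `f | W_3 = f`: Theorem A modulo every power of `5`. -/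
theorem taeK5 : TAKe 5 :=
  hTAKof 5 3 ddK5 (by norm_num) (by norm_num) (by norm_num) avgK Pool.Agent.Helper61.TKC.hCom evK
    hksK b3aK b3b5K Pool.Agent.Helper76.TK5.ubk5 lbK5 (core52K ddK5 lbK5)
    (Pool.Agent.Helper76.TK5.hBasK5 triT lifT cntT)
    (hLft5 trm relT exT uniT) Pool.Agent.Helper57.TKW.hUIp

/-- The hypothesis of the analytic part for the levels `3·5^n`. -/
theorem tahK5 : Pool.Agent.Helper28.TK.TAH 5 4 := TAKe.toTAH taeK5

end Pool.Agent.Helper79.TKE
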