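import Pool.Agent.Helper79.THE.Mu7
import Pool.Agent.Helper14.TK7.StD

/-!
# Levels `3·7^n`: lifting solutions of the relations from `ZMod q` (`q` prime to `6`) to the integers, planes of type `(r, 0)`
-/

set_option autoImplicit false

namespace Pool.Agent.Helper79.TKE

open Pool.Agent.Helper84.S7 (tr7 S7Trm)
open Pool.Agent.Helper14.TK7
open Pool.Agent.Helper79.THE (liftOrd liftFn)
open Pool.Agent.Helper79.THE.Mu7

namespace LiftM7

private theorem inv2 (hm : S7Trm) {r : ℕ} (a b c : ℤ) (h : ¬ 7 ∣ a) (h2 : ¬ (7 : ℤ) ∣ a * a + 7 * b * c)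
    (p : Pq r) : (mu a b c (-a))^[2] p = p := by
  show mu a b c (-a) (mu a b c (-a) p) = p
  have h' : ¬ (7 : ℤ) ∣ -a := fun h0 => h ((dvd_neg).1 h0)
  rw [mu_mul hm h h' h h']
  have e2 : a * b + b * -a = 0 := by ring
  have e3 : c * a + -a * c = 0 := by ring
  have e4 : 7 * c * b + -a * -a = a * a + 7 * b * c := by ring
  rw [e2, e3, e4]
  exact mu_sc hm _ h2 p

/-- `ρ` on points. -/
private def mr {r : ℕ} : Pq r → Pq r := mu 6 (-1) 3 (-3)

private theorem r2 (hm : S7Trm) {r : ℕ} (p : Pq r) : mr (mr p) = mu 5 (-1) 3 (-4) p := by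
  have h := mu_scl hm 3 5 (-1) 3 (-4) (by norm_num) (by norm_num) (by norm_num) p
  unfold mr
  rw [mu_mul hm (by norm_num) (by norm_num) (by norm_num) (by norm_num), ← h]
  norm_num

private theorem r3 (hm : S7Trm) {r : ℕ} (p : Pq r) : mr (mr (mr p)) = mu 9 (-2) 6 (-9) p := by
  rw [r2 hm (mr p)]
  unfold mr
  have h := mu_scl hm 1 9 (-2) 6 (-9) (by norm_num) (by norm_num) (by norm_num) p
  rw [mu_mul hm (by norm_num) (by norm_num) (by norm_num) (by norm_num), ← h]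
  norm_num

private theorem r4 (hm : S7Trm) {r : ℕ} (p : Pq r) : mr (mr (mr (mr p))) = mu 4 (-1) 3 (-5) p := by
  rw [r3 hm (mr p)]
  unfold mr
  have h := mu_scl hm 3 4 (-1) 3 (-5) (by norm_num) (by norm_num) (by norm_num) p
  rw [mu_mul hm (by norm_num) (by norm_num) (by norm_num) (by norm_num), ← h]
  norm_num

private theorem r5 (hm : S7Trm) {r : ℕ} (p : Pq r) : mr (mr (mr (mr (mr p)))) = mu 3 (-1) 3 (-6) p := by
  rw [r4 hm (mr p)]
  unfold mr
  have h := mu_scl hm 1 3 (-1) 3 (-6) (by norm_num) (by norm_num) (by norm_num) p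
  rw [mu_mul hm (by norm_num) (by norm_num) (by norm_num) (by norm_num), ← h]
  norm_num

private theorem r6 (hm : S7Trm) {r : ℕ} (p : Pq r) : mr (mr (mr (mr (mr (mr p))))) = p := by
  rw [r5 hm (mr p)]
  unfold mr
  have h := mu_sc hm (r := r) (-3) (by norm_num) p
  rw [mu_mul hm (by norm_num) (by norm_num) (by norm_num) (by norm_num)]
  norm_num
  exact h

/-- `τ` on points. -/
private def mt {r : ℕ} : Pq r → Pq r := mu 18 (-13) 3 (-15)

private theorem t2 (hm : S7Trm) {r : ℕ} (p : Pq r) : mt (mt p) = mu 17 (-13) 3 (-16) p := by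
  have h := mu_scl hm 3 17 (-13) 3 (-16) (by norm_num) (by norm_num) (by norm_num) p
  unfold mt
  rw [mu_mul hm (by norm_num) (by norm_num) (by norm_num) (by norm_num), ← h]
  norm_num

private theorem t3 (hm : S7Trm) {r : ℕ} (p : Pq r) : mt (mt (mt p)) = mu 33 (-26) 6 (-33) p := by
  rw [t2 hm (mt p)]
  unfold mt
  have h := mu_scl hm 1 33 (-26) 6 (-33) (by norm_num) (by norm_num) (by norm_num) p
  rw [mu_mul hm (by norm_num) (by norm_num) (by norm_num) (by norm_num), ← h]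
  norm_num

private theorem t4 (hm : S7Trm) {r : ℕ} (p : Pq r) : mt (mt (mt (mt p))) = mu 16 (-13) 3 (-17) p := by
  rw [t3 hm (mt p)]
  unfold mt
  have h := mu_scl hm 3 16 (-13) 3 (-17) (by norm_num) (by norm_num) (by norm_num) p
  rw [mu_mul hm (by norm_num) (by norm_num) (by norm_num) (by norm_num), ← h]
  norm_num

private theorem t5 (hm : S7Trm) {r : ℕ} (p : Pq r) : mt (mt (mt (mt (mt p)))) = mu 15 (-13) 3 (-18) p := by
  rw [t4 hm (mt p)]
  unfold mt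
  have h := mu_scl hm 1 15 (-13) 3 (-18) (by norm_num) (by norm_num) (by norm_num) p
  rw [mu_mul hm (by norm_num) (by norm_num) (by norm_num) (by norm_num), ← h]
  norm_num

private theorem t6 (hm : S7Trm) {r : ℕ} (p : Pq r) : mt (mt (mt (mt (mt (mt p))))) = p := by
  rw [t5 hm (mt p)]
  unfold mt
  have h := mu_sc hm (r := r) (-3) (by norm_num) p
  rw [mu_mul hm (by norm_num) (by norm_num) (by norm_num) (by norm_num)]
  norm_num
  exact h

private theorem sum6 {P R : Type} [AddCommMonoid R] (ρ : P → P) (f : P → R) (p : P) :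
    ∑ i ∈ Finset.range 6, f (ρ^[i] p) =
      f p + f (ρ p) + f (ρ (ρ p)) + f (ρ (ρ (ρ p))) + f (ρ (ρ (ρ (ρ p)))) +
        f (ρ (ρ (ρ (ρ (ρ p))))) := by
  simp only [Finset.sum_range_succ, Finset.sum_range_zero, zero_add]
  rfl

theorem main (hm : S7Trm) (r q : ℕ) (hq : Nat.Coprime 6 q)
    (f : Fin 4 → ZMod (7 ^ r) → ZMod (7 ^ 0) → ZMod q) (hf : RelK f) :
    ∃ F : Fin 4 → ZMod (7 ^ r) → ZMod (7 ^ 0) → ℤ, RelK F ∧
      ∀ i x y, ((F i x y : ℤ) : ZMod q) = f i x y := by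
  have h2q : Nat.Coprime 2 q := Nat.Coprime.coprime_dvd_left (by norm_num) hq
  obtain ⟨e1, e2, e3, e4⟩ := hf
  have E1 : ∀ p : Pq r, f 1 p.1 p.2 + f 1 (mr p).1 (mr p).2 +
      f 1 (mr (mr p)).1 (mr (mr p)).2 + f 1 (mr (mr (mr p))).1 (mr (mr (mr p))).2 +
      f 1 (mr (mr (mr (mr p)))).1 (mr (mr (mr (mr p)))).2 +
      f 1 (mr (mr (mr (mr (mr p))))).1 (mr (mr (mr (mr (mr p))))).2 = 0 := by
    intro p
    rw [r5 hm, r4 hm, r3 hm, r2 hm]
    exact e1 p.1 p.2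
  have E4 : ∀ p : Pq r, kK f p.1 p.2 + kK f (mt p).1 (mt p).2 +
      kK f (mt (mt p)).1 (mt (mt p)).2 + kK f (mt (mt (mt p))).1 (mt (mt (mt p))).2 +
      kK f (mt (mt (mt (mt p)))).1 (mt (mt (mt (mt p)))).2 +
      kK f (mt (mt (mt (mt (mt p))))).1 (mt (mt (mt (mt (mt p))))).2 = 0 := by
    intro p
    rw [t5 hm, t4 hm, t3 hm, t2 hm]
    exact e4 p.1 p.2
  obtain ⟨G1, a1, b1, c1⟩ := liftOrd 6 q (by norm_num) hq (mr : Pq r → Pq r) (r6 hm)
    (fun p => f 1 p.1 p.2) (fun p => (sum6 mr (fun p : Pq r => f 1 p.1 p.2) p).trans (E1 p))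
  obtain ⟨GB, aB, bB, cB⟩ := liftOrd 2 q (by norm_num) h2q (mu 9 (-4) 3 (-9) : Pq r → Pq r)
    (inv2 hm 9 (-4) 3 (by norm_num) (by norm_num)) (fun p => f 2 p.1 p.2 - f 1 p.1 p.2) (fun p => by
      rw [Finset.sum_range_succ, Finset.sum_range_one]
      exact e2 p.1 p.2)
  obtain ⟨GC, aC, bC, cC⟩ := liftOrd 2 q (by norm_num) h2q (mu 12 (-7) 3 (-12) : Pq r → Pq r)
    (inv2 hm 12 (-7) 3 (by norm_num) (by norm_num)) (fun p => f 3 p.1 p.2 - f 2 p.1 p.2) (fun p => by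
      rw [Finset.sum_range_succ, Finset.sum_range_one]
      exact e3 p.1 p.2)
  obtain ⟨GK, aK, bK, cK⟩ := liftOrd 6 q (by norm_num) hq (mt : Pq r → Pq r) (t6 hm)
    (fun p => kK f p.1 p.2) (fun p => (sum6 mt (fun p : Pq r => kK f p.1 p.2) p).trans (E4 p))
  let G2 : Pq r → ℤ := fun p => G1 p + GB p
  let G3 : Pq r → ℤ := fun p => G2 p + GC p
  have c2 : ∀ p, ((G2 p : ℤ) : ZMod q) = f 2 p.1 p.2 := by
    intro p
    show ((G1 p + GB p : ℤ) : ZMod q) = f 2 p.1 p.2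
    rw [Int.cast_add, c1, cB]
    ring
  have c3 : ∀ p, ((G3 p : ℤ) : ZMod q) = f 3 p.1 p.2 := by
    intro p
    show ((G2 p + GC p : ℤ) : ZMod q) = f 3 p.1 p.2
    rw [Int.cast_add, c2, cC]
    ring
  let k : Pq r → ℤ := fun p => G3 p + GK p
  have hk : ∑ p, k p = 0 := by
    simp only [k, G3, G2, Finset.sum_add_distrib]
    rw [b1, bB, bC, bK]
    ring
  obtain ⟨G0, d0, c0⟩ := solveM k hk (fun p => f 0 p.1 p.2) (fun p => by
    show f 0 p.1 p.2 - f 0 (mu 1 1 0 1 p).1 (mu 1 1 0 1 p).2 = ((G3 p + GK p : ℤ) : ZMod q)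
    rw [Int.cast_add, c3, cK]
    show f 0 p.1 p.2 - f 0 (mu 1 1 0 1 p).1 (mu 1 1 0 1 p).2 = f 3 p.1 p.2 +
      (f 0 p.1 p.2 - f 0 (mu 1 1 0 1 p).1 (mu 1 1 0 1 p).2 - f 3 p.1 p.2)
    ring)
  refine ⟨![fun x y => G0 (x, y), fun x y => G1 (x, y), fun x y => G2 (x, y), fun x y => G3 (x, y)],
    ⟨?_, ?_, ?_, ?_⟩, ?_⟩
  · intro x y
    have h := a1 (x, y)
    rw [sum6, r5 hm, r4 hm, r3 hm, r2 hm] at h
    exact h
  · intro x y
    have h := aB (x, y)
    rw [Finset.sum_range_succ, Finset.sum_range_one] at h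
    have h' : GB (x, y) + GB (mu 9 (-4) 3 (-9) (x, y)) = 0 := h
    show G2 (x, y) - G1 (x, y) + (G2 (mu 9 (-4) 3 (-9) (x, y)) - G1 (mu 9 (-4) 3 (-9) (x, y))) = 0
    simp only [G2]
    linear_combination h'
  · intro x y
    have h := aC (x, y)
    rw [Finset.sum_range_succ, Finset.sum_range_one] at h
    have h' : GC (x, y) + GC (mu 12 (-7) 3 (-12) (x, y)) = 0 := h
    show G3 (x, y) - G2 (x, y) + (G3 (mu 12 (-7) 3 (-12) (x, y)) - G2 (mu 12 (-7) 3 (-12) (x, y))) = 0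
    simp only [G3]
    linear_combination h'
  · intro x y
    have hkk : kK (![fun x y => G0 (x, y), fun x y => G1 (x, y), fun x y => G2 (x, y),
        fun x y => G3 (x, y)] : Fin 4 → ZMod (7 ^ r) → ZMod (7 ^ 0) → ℤ) = fun x y => GK (x, y) := by
      funext x y
      have h := d0 (x, y)
      show G0 (x, y) - G0 (mu 1 1 0 1 (x, y)) - G3 (x, y) = GK (x, y)
      rw [h]
      show G3 (x, y) + GK (x, y) - G3 (x, y) = GK (x, y)
      ring
    rw [hkk]
    have h := aK (x, y)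
    rw [sum6, t5 hm, t4 hm, t3 hm, t2 hm] at h
    exact h
  · intro i x y
    fin_cases i
    · exact c0 (x, y)
    · exact c1 (x, y)
    · exact c2 (x, y)
    · exact c3 (x, y)

end LiftM7

end Pool.Agent.Helper79.TKE
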