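import Pool.Agent.Helper79.TKE.StE

/-!
# Project TK, module TA: Theorem A for twisted symbols from CRM, K, INT (from `Helper24/W5/M_TA.lean`)
-/

set_option autoImplicit false

namespace Pool.Agent.Helper79.TKE

open Pool.Agent.Helper14.W5 (Tw_add)
open Pool.Agent.Helper14.CV
open Pool.Agent.Helper93.TLE (DDE)
open Pool.Agent.Helper4.TK Pool.Agent.Helper83.TKC
open Pool.Agent.Helper28.WK (Tw evw)

section

variable {R S : Type} [AddCommGroup R] [AddCommGroup S]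

/-- composition with a homomorphism of groups -/
private def mpp (φ : R →+ S) (G : ℤ → ℤ → R) : ℤ → ℤ → S := fun p q => φ (G p q)

private theorem mp_act (φ : R →+ S) (a b c d : ℤ) (G : ℤ → ℤ → R) :
    mpp φ (act a b c d G) = act a b c d (mpp φ G) := rfl

private theorem mp_add (φ : R →+ S) (G H : ℤ → ℤ → R) : mpp φ (G + H) = mpp φ G + mpp φ H := by
  funext p q; simp [mpp]

private theorem mp_sub (φ : R →+ S) (G H : ℤ → ℤ → R) : mpp φ (G - H) = mpp φ G - mpp φ H := by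
  funext p q; simp [mpp]

private theorem mp_smul (φ : R →+ S) (k : ℤ) (G : ℤ → ℤ → R) : mpp φ (k • G) = k • mpp φ G := by
  funext p q
  exact map_zsmul φ k (G p q)

private theorem mp_eqc (φ : R →+ S) {G H : ℤ → ℤ → R} (h : EqC G H) : EqC (mpp φ G) (mpp φ H) := by
  obtain ⟨c, hc⟩ := h
  exact ⟨φ c, fun p q hpq => by simp only [mpp]; rw [hc p q hpq, map_add]⟩

private theorem mp_sym (φ : R →+ S) {p r s : ℕ} {G : ℤ → ℤ → R} (h : SymK p r s G) : SymK p r s (mpp φ G) :=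
  ⟨fun k p q hk hpq => by simp only [mpp]; rw [h.1 k p q hk hpq],
    fun a b c d hd hb hc => mp_eqc φ (h.2 a b c d hd hb hc)⟩

private theorem mp_Tl (φ : R →+ S) (l : ℕ) (m : ℤ) (G : ℤ → ℤ → R) : mpp φ (Tl l m G) = Tl l m (mpp φ G) := by
  funext p q
  simp only [mpp, Tl, map_add, map_sum]

private theorem mp_Tw (φ : R →+ S) (m : ℤ) (ls : List ℕ) (G : ℤ → ℤ → R) :
    mpp φ (Tw m ls G) = Tw m ls (mpp φ G) := by
  induction ls with
  | nil => rfl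
  | cons l ls ih =>
    show mpp φ (Tl l m (Tw m ls G)) = Tl l m (Tw m ls (mpp φ G))
    rw [mp_Tl, ih]

private theorem mp_evw (φ : R →+ S) (m : ℤ) (ls : List ℕ) (G : ℤ → ℤ → R) :
    evw m ls (mpp φ G) = φ (evw m ls G) := by
  unfold evw
  rw [← mp_Tw, map_sub]
  rfl

private theorem Tw_neg' (m : ℤ) (ls : List ℕ) (G : ℤ → ℤ → R) : Tw m ls (-G) = -Tw m ls G := by
  induction ls with
  | nil => rfl
  | cons l ls ih =>
    show Tl l m (Tw m ls (-G)) = -Tl l m (Tw m ls G)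
    rw [ih, Tl_neg]

private theorem evw_add (m : ℤ) (ls : List ℕ) (G H : ℤ → ℤ → R) :
    evw m ls (G + H) = evw m ls G + evw m ls H := by
  unfold evw
  rw [Tw_add, Pi.add_apply, Pi.add_apply, Pi.add_apply, Pi.add_apply]
  abel

private theorem evw_neg (m : ℤ) (ls : List ℕ) (G : ℤ → ℤ → R) : evw m ls (-G) = -evw m ls G := by
  unfold evw
  rw [Tw_neg', Pi.neg_apply, Pi.neg_apply, Pi.neg_apply, Pi.neg_apply]
  abel

/-- `W = -1` and `* = 1` for the symmetrised symbol -/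
private theorem sym_W {w : ℤ} (_hw : w ≠ 0) {H1 : ℤ → ℤ → R}
    (c1 : EqC (act 0 (-1) w 0 (act 0 (-1) w 0 H1)) H1)
    (c2 : ∀ H : ℤ → ℤ → R, H = H1 - act 0 (-1) w 0 H1 →
      EqC (act 0 (-1) w 0 (act (-1) 0 0 1 H)) (act (-1) 0 0 1 (act 0 (-1) w 0 H))) :
    EqC (act 0 (-1) w 0 (H1 - act 0 (-1) w 0 H1 + act (-1) 0 0 1 (H1 - act 0 (-1) w 0 H1)))
      (-(H1 - act 0 (-1) w 0 H1 + act (-1) 0 0 1 (H1 - act 0 (-1) w 0 H1))) := by
  have h1 : EqC (act 0 (-1) w 0 (H1 - act 0 (-1) w 0 H1)) (-(H1 - act 0 (-1) w 0 H1)) := by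
    rw [act_sub, neg_sub]
    exact (EqC.refl _).sub c1
  rw [act_add, neg_add]
  refine h1.add ((c2 _ rfl).trans ?_)
  rw [← act_neg]
  exact h1.act (by norm_num)

private theorem sym_T {H : ℤ → ℤ → R} (c : EqC (act (-1) 0 0 1 (act (-1) 0 0 1 H)) H) :
    EqC (act (-1) 0 0 1 (H + act (-1) 0 0 1 H)) (H + act (-1) 0 0 1 H) := by
  rw [act_add, add_comm H]
  exact (EqC.refl _).add c

private theorem symEsub {p r s : ℕ} {G H : ℤ → ℤ → R} (hG : SymK p r s G) (hH : SymK p r s H) :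
    SymK p r s (G - H) := by
  rw [sub_eq_add_neg]
  exact SymK.add hG (SymK.neg hH)

end

/-- an inverse modulo `p ^ M` -/
private theorem invp {p : ℕ} (hp : p.Prime) {d : ℤ} (hd : ¬ (p : ℤ) ∣ d) (M : ℕ) :
    ∃ d' : ℤ, ((d' * d : ℤ) : ZMod (p ^ M)) = 1 := by
  have h1 : IsCoprime ((p : ℤ) ^ M) d :=
    ((Nat.prime_iff_prime_int.1 hp).coprime_iff_not_dvd.2 hd).pow_left
  obtain ⟨a, b, h⟩ := h1
  refine ⟨b, ?_⟩
  have h2 : b * d = 1 - a * (p : ℤ) ^ M := by linarith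
  rw [h2]
  push_cast
  have h3 : ((p : ZMod (p ^ M))) ^ M = 0 := by
    have := ZMod.natCast_self (p ^ M)
    push_cast at this
    exact this
  rw [h3, mul_zero, sub_zero]

/-- **TA.** -/
theorem hTA (hAvg : SKAvg) (hCom : SKCom) (hEv : SKEv) (p : ℕ) (hp : p.Prime) (hp2 : p ≠ 3)
    (hpo : p ≠ 2) (hCrm : CrmK p) (hK : KkK p) (hInt : IntK p) : TAKe p := by
  intro m M g hm hg hW hT hev
  obtain ⟨d, G1, hd, s1, v1, e1⟩ := hCrm m M g (by omega) hg hev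
  have hp0 : (p : ℤ) ≠ 0 := by exact_mod_cast hp.ne_zero
  have hw : 3 * (p : ℤ) ^ m ≠ 0 := mul_ne_zero three_ne_zero (pow_ne_zero _ hp0)
  -- the integral symbol
  set G2 : ℤ → ℤ → ℤ := G1 - act 0 (-1) (3 * (p : ℤ) ^ m) 0 G1 + act (-1) 0 0 1 (G1 - act 0 (-1) (3 * (p : ℤ) ^ m) 0 G1)
    with hG2
  set φ : ℤ →+ ℂ := Int.castAddHom ℂ with hφ
  set H1 : ℤ → ℤ → ℂ := mpp φ G1 with hH1
  have t1 : SymK p 0 m H1 := mp_sym φ s1
  have w1 : ∀ ls, OkK p ls → evw 1 ls H1 = 0 := fun ls hls => by rw [hH1, mp_evw, v1 ls hls, map_zero]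
  set H : ℤ → ℤ → ℂ := H1 - act 0 (-1) (3 * (p : ℤ) ^ m) 0 H1 with hH
  have eH2 : mpp φ G2 = H + act (-1) 0 0 1 H := by
    rw [hG2, mp_add, mp_act, mp_sub, mp_act]
  have t2 : SymK p 0 m H := symEsub t1 (hAvg p hp hp2 m H1 (by omega) t1).2.2.2.1
  have t3 : SymK p 0 m (H + act (-1) 0 0 1 H) := SymK.add t2 (hAvg p hp hp2 m H (by omega) t2).2.2.2.2
  have k1 := hCom p hp hp2 m H1 (by omega) t1
  have k2 := hCom p hp hp2 m H (by omega) t2
  have a1 : EqC (act 0 (-1) (3 * (p : ℤ) ^ m) 0 (H + act (-1) 0 0 1 H)) (-(H + act (-1) 0 0 1 H)) :=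
    sym_W hw k1.2.2.2.2.2.2.2.1 (fun H' h' => by
      rw [h']
      exact k2.2.2.2.2.2.2.2.2.2)
  have a2 : EqC (act (-1) 0 0 1 (H + act (-1) 0 0 1 H)) (H + act (-1) 0 0 1 H) :=
    sym_T k2.2.2.2.2.2.2.2.2.1
  have a3 : WzK p 1 (H + act (-1) 0 0 1 H) := by
    intro ls hls
    have b1 : evw 1 ls H = 0 := by
      rw [hH, sub_eq_add_neg, evw_add, evw_neg, (hEv p hp hp2 ℂ _ m H1 t1 ls hls).1, w1 ls hls]
      simp
    rw [evw_add, (hEv p hp hp2 ℂ _ m H t2 ls hls).2, b1, add_zero]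
  obtain ⟨ψ0, p1, p2⟩ := hK m _ (by omega) t3 a1 a2 a3
  have p3 : EqC (act p 0 0 1 ψ0 - ψ0) (fun p q => ((G2 p q : ℤ) : ℂ)) := by
    rw [← eH2] at p2
    exact p2
  obtain ⟨ψ1, q1, q2⟩ := hInt (m - 1) ψ0 G2 p1 p3
  -- reduction
  have hd3 : ¬ (p : ℤ) ∣ 2 * d := by
    intro h
    rcases (Nat.prime_iff_prime_int.1 hp).dvd_mul.1 h with h3 | h3
    · have h4 : p ∣ 2 := by exact_mod_cast h3
      exact hpo ((Nat.prime_dvd_prime_iff_eq hp Nat.prime_two).1 h4)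
    · exact hd h3
  obtain ⟨d', hd'⟩ := invp hp hd3 M
  set χ : ℤ →+ ZMod (p ^ M) := Int.castAddHom (ZMod (p ^ M)) with hχ
  have r1 : SymK p 0 (m - 1) (mpp χ ψ1) := mp_sym χ q1
  have r2 : EqC (act p 0 0 1 (mpp χ ψ1) - mpp χ ψ1) ((2 : ℤ) • mpp χ G2) := by
    have := mp_eqc χ q2
    rw [mp_sub, mp_act, mp_smul] at this
    exact this
  have e1' : EqC (mpp χ G1) (d • g) := e1
  have u1 : EqC (act 0 (-1) (3 * (p : ℤ) ^ m) 0 (mpp χ G1)) (-(d • g)) := by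
    refine (e1'.act (by simpa using hw)).trans ?_
    rw [act_smul, ← smul_neg]
    exact hW.smul d
  have u2 : EqC (mpp χ G1 - act 0 (-1) (3 * (p : ℤ) ^ m) 0 (mpp χ G1)) (d • g + d • g) := by
    have := e1'.sub u1
    rw [sub_neg_eq_add] at this
    exact this
  have u3 : EqC (act (-1) 0 0 1 (mpp χ G1 - act 0 (-1) (3 * (p : ℤ) ^ m) 0 (mpp χ G1))) (d • g + d • g) := by
    refine (u2.act (by norm_num)).trans ?_
    rw [act_add, act_smul]
    exact (hT.smul d).add (hT.smul d)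
  have u4 : EqC (mpp χ G2) (d • g + d • g + (d • g + d • g)) := by
    rw [hG2, mp_add, mp_act, mp_sub, mp_act]
    exact u2.add u3
  refine ⟨d' • mpp χ ψ1, SymK.smul d' r1, ?_⟩
  have u5 := (r2.trans (u4.smul (2 : ℤ))).smul d'
  have e5 : d' • (act p 0 0 1 (mpp χ ψ1) - mpp χ ψ1) = act p 0 0 1 (d' • mpp χ ψ1) - d' • mpp χ ψ1 := by
    rw [smul_sub, act_smul]
  have e6 : d' • ((2 : ℤ) • (d • g + d • g + (d • g + d • g))) = (4 : ℤ) • g := by
    funext p q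
    have h1 : ∀ x : ZMod (_ ^ M), d' • ((2 : ℤ) • (d • x)) = x := fun x => by
      rw [smul_smul, smul_smul, zsmul_eq_mul, mul_assoc, hd', one_mul]
    simp only [Pi.smul_apply, Pi.add_apply, smul_add, h1]
    rw [zsmul_eq_mul]
    push_cast
    ring
  rw [e5, e6] at u5
  exact u5

end Pool.Agent.Helper79.TKE
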