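import Pool.Agent.Helper79.TKE.Asm
import Pool.Agent.Helper79.TKE.M_Lft7
import Pool.Agent.Helper14.TK7.Core
import Pool.Agent.Helper76.Bq.M_Bas73
import Pool.Agent.Helper57.TKW.M_UIp

/-!
# Levels `3·7^n`: Theorem A for the symbols `SymK` and the prime `7`
-/

set_option autoImplicit false

namespace Pool.Agent.Helper79.TKE

open Pool.Agent.Helper4.TK Pool.Agent.Helper83.TKC
open Pool.Agent.Helper14.TK7 (lbK7 coreVK72 triT lifT cntT relT exT uniT)
open Pool.Agent.Helper76.TK7 (ddK7 ubk7)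

/-- Symbols of level `3·7^m`, `f | W_3 = f`: Theorem A modulo every power of `7`. -/
theorem taeK7 : TAKe 7 :=
  hTAKof 7 4 ddK7 (by norm_num) (by norm_num) (by norm_num) avgK Pool.Agent.Helper61.TKC.hCom evK
    hksK b3aK b3b7K ubk7 lbK7 coreVK72
    (Pool.Agent.Helper76.Bq.hBas73 triT lifT cntT)
    (hLft7 Pool.Agent.Helper84.S7.trm relT exT uniT) Pool.Agent.Helper57.TKW.hUIp

/-- The hypothesis of the analytic part for the levels `3·7^n`. -/
theorem tahK7 : Pool.Agent.Helper28.TK.TAH 7 4 := TAKe.toTAH taeK7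

end Pool.Agent.Helper79.TKE
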